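import Pool.Agent.H46R2.SY.CYC
import Pool.Agent.H46R2.SY.INV
import Pool.Agent.H46R2.SY.SUB
import Pool.Agent.H46R2.SY.NEU
import Pool.Agent.H46R2.SY.GRID
import Pool.Agent.H46R2.SY.FC
import Pool.Agent.H46R2.SY.FIN
import Pool.Agent.H46R2.SY.ODD
import Pool.Agent.H46R2.SY.MIN
import Pool.Agent.H46R2.SY.SET

/-!
Large finite monochromatic symmetric subsets of infinite groups (MP_76c039_co, Q1):
every finite colouring of an infinite group has one-coloured symmetric sets of every finite size,
except possibly for one exotic class of groups.  In particular this holds for every infinite group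
without elements of order two (all Burnside groups of odd exponent, Tarski monsters, ...).
-/

set_option autoImplicit false

namespace Pool.Agent.Results.MP_76c039_co.NonExceptional

/-- The possible exceptions: the group has bounded exponent; it has only finitely many elements of
order two; every infinite subset contains two different elements `x`, `y` such that the order of
`x y⁻¹` is even; and every infinite subgroup `K` contains an infinite subgroup `H` and an element `t`
of order two which is central in `H` and lies in every infinite subgroup of `H`. -/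
def Exceptional (G : Type) [Group G] : Prop :=
  (∃ N : ℕ, 0 < N ∧ ∀ x : G, x ^ N = 1) ∧
  {x : G | x ^ 2 = 1}.Finite ∧
  (∀ S : Set G, S.Infinite → ∃ x ∈ S, ∃ y ∈ S, x ≠ y ∧ Even (orderOf (x * y⁻¹))) ∧
  (∀ K : Subgroup G, (K : Set G).Infinite →
    ∃ H : Subgroup G, H ≤ K ∧ (H : Set G).Infinite ∧
      ∃ t ∈ H, t ≠ 1 ∧ t ^ 2 = 1 ∧ (∀ x ∈ H, t * x = x * t) ∧
        ∀ L : Subgroup G, L ≤ H → (L : Set G).Infinite → t ∈ L)

open Pool.Agent.H46R2.SY in
/-- **Theorem.** Let `G` be an infinite group that is not exceptional. For every colouring of `G` with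
finitely many colours and every `n` there is a finite one-coloured set `A` with at least `n` elements
and some `g` with `A = g A⁻¹ g`. -/
theorem result (G : Type) [Group G] [Infinite G] (hG : ¬ Exceptional G)
    (k : ℕ) (c : G → Fin k) (n : ℕ) :
    ∃ (A : Finset G) (g : G),
      n ≤ A.card ∧
      (∀ a ∈ A, ∀ b ∈ A, c a = c b) ∧
      (A : Set G) = (fun x => g * x⁻¹ * g) '' (A : Set G) := by
  have hNEU : S_NEU := t_NEU
  have hGRID : S_GRID := t_GRID hNEU
  have hFC : S_FC := t_FC
  have hODD : S_ODD := t_ODD hGRID hFC t_FIN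
  have key : HasSym G := by
    by_contra hfail
    apply hG
    -- bounded exponent
    have h1 : ∃ N : ℕ, 0 < N ∧ ∀ x : G, x ^ N = 1 := by
      by_contra hcon
      push Not at hcon
      exact hfail (t_CYC G hcon)
    -- finitely many involutions
    have h2 : {x : G | x ^ 2 = 1}.Finite := by
      by_contra hcon
      exact hfail (t_INV G hcon)
    obtain ⟨N, hN, hexp⟩ := h1
    have h3 : ∀ S : Set G, S.Infinite → ∃ x ∈ S, ∃ y ∈ S, x ≠ y ∧ Even (orderOf (x * y⁻¹)) := by
      intro S hS
      by_contra hcon
      push Not at hcon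
      refine hfail (t_SET hGRID hODD hFC N hN hexp h2 S hS ?_)
      intro x hx y hy hxy
      exact Nat.not_even_iff_odd.1 (hcon x hx y hy hxy)
    refine ⟨⟨N, hN, hexp⟩, h2, h3, ?_⟩
    apply t_MIN G h2
    intro K hK
    obtain ⟨x, hx, y, hy, hxy, m, hm⟩ := h3 K hK
    have hfo : IsOfFinOrder (x * y⁻¹) :=
      isOfFinOrder_iff_pow_eq_one.2 ⟨N, hN, hexp _⟩
    have hpos : 0 < orderOf (x * y⁻¹) := hfo.orderOf_pos
    refine ⟨(x * y⁻¹) ^ m, K.pow_mem (K.mul_mem hx (K.inv_mem hy)) _, ?_, ?_⟩
    · intro h
      have := orderOf_dvd_of_pow_eq_one h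
      have := Nat.le_of_dvd (by omega) this
      omega
    · rw [← pow_mul, mul_two, ← hm, pow_orderOf_eq_one]
  exact key k c n

end Pool.Agent.Results.MP_76c039_co.NonExceptional
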